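import Mathlib
import Pool.Agent.Lib.MP_49ebba_an.MR.MainD
import Pool.Agent.Lib.MP_49ebba_an.MR.TWO

set_option autoImplicit false

namespace Pool.Agent.Results.MP_49ebba_an.MaximalRadius

open Metric Filter Topology

/-- The quadratic polynomial of the problem, `P_l(z) = l (z + z^2)`. -/
def P (l z : ℂ) : ℂ := l * (z + z ^ 2)

/-- `l` has modulus one and is not a root of unity. -/
def Neutral (l : ℂ) : Prop := ‖l‖ = 1 ∧ ∀ n : ℕ, 0 < n → l ^ n ≠ 1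

/-- `P_l` is linearisable on the disc of radius `r`: there is an analytic `h` there with `h(0) = 0`,
`h'(0) = 1` and `P_l(h(z)) = h(l z)`; that is, the series `h_l` converges on this disc. -/
def Linearisable (l : ℂ) (r : ℝ) : Prop :=
  ∃ h : ℂ → ℂ, DifferentiableOn ℂ h (ball 0 r) ∧ h 0 = 0 ∧ deriv h 0 = 1 ∧
    ∀ z ∈ ball (0 : ℂ) r, P l (h z) = h (l * z)

/-- The radius of convergence `R(l)` of `h_l` (`0` if there is no `r > 0` as in `Linearisable`). -/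
noncomputable def R (l : ℂ) : ℝ := sSup {r : ℝ | 0 < r ∧ Linearisable l r}

/-- The polynomials `u_n`: `u_0 = -1/2`, `u_(n+1)(l) = u_n(l) + l^n u_n(l)^2`. -/
noncomputable def u (l : ℂ) : ℕ → ℂ
  | 0 => -1 / 2
  | n + 1 => u l n + l ^ n * u l n ^ 2

lemma lin_iff (l : ℂ) (r : ℝ) : Linearisable l r ↔ Pool.Agent.Lib.MP49ebba.Lin l r :=
  ⟨fun ⟨h, a, b, c, d⟩ => ⟨h, ⟨a, b, c, d⟩⟩, fun ⟨h, a⟩ => ⟨h, a.diff, a.zero, a.one, a.eqn⟩⟩

lemma R_eq (l : ℂ) : R l = sSup {r : ℝ | 0 < r ∧ Pool.Agent.Lib.MP49ebba.Lin l r} := by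
  unfold R
  congr 1
  ext r
  simp only [Set.mem_setOf_eq, lin_iff]

lemma u_eq (l : ℂ) (n : ℕ) : u l n = Pool.Agent.Lib.MP49ebba.uu l n := by
  induction n with
  | zero => rfl
  | succ n ih =>
    show u l n + l ^ n * u l n ^ 2 = _
    rw [ih]
    rfl

lemma R_bounds (l : ℂ) (hl : Neutral l) : R l * ‖l - 2‖ ≤ 2 ∧ R l * ‖l - 2‖ ^ 2 ≤ 4 * ‖l - 1‖ ∧
    R l ^ 2 * ‖l - 3‖ ≤ 16 * ‖l + 1‖ := by
  have h0 : 0 ≤ R l := Real.sSup_nonneg (fun r hr => hr.1.le)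
  rcases h0.eq_or_lt with h | h
  · rw [← h]
    refine ⟨by norm_num, ?_, ?_⟩
    · rw [zero_mul]; positivity
    · rw [zero_pow two_ne_zero, zero_mul]; positivity
  · have hl0 : l ≠ 0 := by
      rintro rfl
      have := hl.1
      simp at this
    rw [R_eq] at h ⊢
    exact Pool.Agent.Lib.MP49ebba.explicit_bounds
      (Pool.Agent.Lib.MP49ebba.specKOE Pool.Agent.Lib.MP49ebba.specBIE)
      Pool.Agent.Lib.MP49ebba.specUNI l _ hl h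
      (Pool.Agent.Lib.MP49ebba.lin_sSup l hl0 hl.1.le h
        ⟨1, fun r hr => Pool.Agent.Lib.MP49ebba.upoM l r hl hr.2⟩)

/-- The supremum `m` of `R(l)` over the neutral `l` is attained, `0.31 < m ≤ 1`, and
`m ≥ |lim u_n(l)|` for all `|l| < 1`; and for every neutral `l`: `(R(l)/4)^(2^q - 1) ≤ |l^q - 1|` for
all `q ≥ 1`, `R(l) ≤ 2/|l - 2|`, `R(l) ≤ 4 |l - 1|/|l - 2|^2` and `R(l)^2 ≤ 16 |l + 1|/|l - 3|`. -/
theorem result :
    (∃ m : ℝ, IsGreatest (R '' {l | Neutral l}) m ∧ 31 / 100 < m ∧ m ≤ 1 ∧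
      ∀ l : ℂ, ‖l‖ < 1 → ∃ v : ℂ, Tendsto (u l) atTop (𝓝 v) ∧ ‖v‖ ≤ m) ∧
    ∀ l : ℂ, Neutral l →
      (∀ q : ℕ, 1 ≤ q → (R l / 4) ^ (2 ^ q - 1) ≤ ‖l ^ q - 1‖) ∧
      R l * ‖l - 2‖ ≤ 2 ∧ R l * ‖l - 2‖ ^ 2 ≤ 4 * ‖l - 1‖ ∧ R l ^ 2 * ‖l - 3‖ ≤ 16 * ‖l + 1‖ := by
  constructor
  · obtain ⟨m, h1, h2, h3⟩ := Pool.Agent.Lib.MP49ebba.finM'
    have hfun : (fun l : ℂ => sSup {r : ℝ | 0 < r ∧ Pool.Agent.Lib.MP49ebba.Lin l r}) = R :=
      funext fun l => (R_eq l).symm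
    rw [hfun] at h2
    refine ⟨m, h2, h1, ?_, ?_⟩
    · obtain ⟨l, hl, rfl⟩ := h2.1
      rw [R_eq]
      exact Pool.Agent.Lib.MP49ebba.sSup_le_one l hl
    · intro l hl
      obtain ⟨v, hv, hvm⟩ := h3 l hl
      refine ⟨v, ?_, hvm⟩
      have : u l = Pool.Agent.Lib.MP49ebba.uu l := funext (u_eq l)
      rw [this]
      exact hv
  · intro l hl
    refine ⟨fun q hq => ?_, R_bounds l hl⟩
    rw [R_eq]
    exact Pool.Agent.Lib.MP49ebba.dioph_sSup l hl q hq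

end Pool.Agent.Results.MP_49ebba_an.MaximalRadius
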